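import Mathlib

/-!
# Metric measure spaces, the observable distance: definitions
-/

open MeasureTheory Set TopologicalSpace

namespace Pool.Agent.Work.MP_bb77e0_gt

/-- An mm-space: a complete separable metric space with a Borel probability measure. -/
structure MMSpace : Type 1 where
  carrier : Type
  [metric : MetricSpace carrier]
  [complete : CompleteSpace carrier]
  [separable : SeparableSpace carrier]
  [measurable : MeasurableSpace carrier]
  [borel : BorelSpace carrier]
  μ : Measure carrier
  [prob : IsProbabilityMeasure μ]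

attribute [instance] MMSpace.metric MMSpace.complete MMSpace.separable MMSpace.measurable
  MMSpace.borel MMSpace.prob

/-- The restriction of the measure to its support, as a measure on the subtype. -/
noncomputable def MMSpace.suppMeasure (X : MMSpace) : Measure X.μ.support :=
  X.μ.comap Subtype.val

/-- mm-isomorphism: an isometry of the supports which maps one measure to the other. -/
def MMSpace.Iso (X Y : MMSpace) : Prop :=
  ∃ f : X.μ.support ≃ᵢ Y.μ.support, Measure.map f X.suppMeasure = Y.suppMeasure

/-- The interval `I = [0, 1)`. -/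
abbrev I : Type := Ico (0:ℝ) 1

/-- The Lebesgue measure of `I`. -/
noncomputable def leb : Measure I := (volume : Measure ℝ).comap Subtype.val

/-- `φ : I → X` is a parameter of `X`. -/
def IsParam (X : MMSpace) (φ : I → X.carrier) : Prop :=
  Measurable φ ∧ Measure.map φ leb = X.μ

/-- The Ky Fan metric. -/
noncomputable def kf {Ω : Type} [MeasurableSpace Ω] (P : Measure Ω) (f g : Ω → ℝ) : ℝ :=
  sInf {ε : ℝ | 0 ≤ ε ∧ P {t | ε < |f t - g t|} ≤ ENNReal.ofReal ε}

/-- The Hausdorff distance with respect to the Ky Fan metric. -/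
noncomputable def hausdorffKF (S T : Set (I → ℝ)) : ℝ :=
  sInf {r : ℝ | 0 ≤ r ∧ (∀ f ∈ S, ∃ g ∈ T, kf leb f g ≤ r) ∧
    (∀ g ∈ T, ∃ f ∈ S, kf leb f g ≤ r)}

/-- The `1`-Lipschitz functions, seen on `I` by means of `φ`. -/
def lipThrough (X : MMSpace) (φ : I → X.carrier) : Set (I → ℝ) :=
  {F | ∃ f : X.carrier → ℝ, LipschitzWith 1 f ∧ F = f ∘ φ}

/-- The observable distance. -/
noncomputable def dconc (X Y : MMSpace) : ℝ :=
  sInf {r : ℝ | ∃ (φ : I → X.carrier) (ψ : I → Y.carrier), IsParam X φ ∧ IsParam Y ψ ∧
    r = hausdorffKF (lipThrough X φ) (lipThrough Y ψ)}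

end Pool.Agent.Work.MP_bb77e0_gt
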