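import Mathlib
import Pool.Agent.Work.MP_bb77e0_gt.Defs

/-!
# The Ky Fan metric
-/

open MeasureTheory Set TopologicalSpace
open scoped ENNReal

namespace Pool.Agent.Work.MP_bb77e0_gt

variable {Ω : Type} [MeasurableSpace Ω] {P : Measure Ω}

theorem kf_bdd (P : Measure Ω) (f g : Ω → ℝ) :
    BddBelow {ε : ℝ | 0 ≤ ε ∧ P {t | ε < |f t - g t|} ≤ ENNReal.ofReal ε} :=
  ⟨0, fun _ h => h.1⟩

theorem kf_nonneg (P : Measure Ω) (f g : Ω → ℝ) : 0 ≤ kf P f g :=
  Real.sInf_nonneg fun _ h => h.1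

theorem kf_le {f g : Ω → ℝ} {r : ℝ} (hr : 0 ≤ r)
    (h : P {t | r < |f t - g t|} ≤ ENNReal.ofReal r) : kf P f g ≤ r :=
  csInf_le (kf_bdd P f g) ⟨hr, h⟩

theorem kf_nonempty [IsProbabilityMeasure P] (f g : Ω → ℝ) :
    {ε : ℝ | 0 ≤ ε ∧ P {t | ε < |f t - g t|} ≤ ENNReal.ofReal ε}.Nonempty :=
  ⟨1, zero_le_one, by rw [ENNReal.ofReal_one]; exact prob_le_one⟩

theorem of_kf_lt [IsProbabilityMeasure P] {f g : Ω → ℝ} {r : ℝ} (h : kf P f g < r) :
    P {t | r < |f t - g t|} ≤ ENNReal.ofReal r := by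
  obtain ⟨ε, ⟨_, h2⟩, h3⟩ := exists_lt_of_csInf_lt (kf_nonempty f g) h
  calc P {t | r < |f t - g t|} ≤ P {t | ε < |f t - g t|} :=
        measure_mono fun t ht => lt_trans h3 ht
    _ ≤ ENNReal.ofReal ε := h2
    _ ≤ ENNReal.ofReal r := ENNReal.ofReal_le_ofReal h3.le

theorem kf_comm (f g : Ω → ℝ) : kf P f g = kf P g f := by
  unfold kf
  simp only [abs_sub_comm]

theorem kf_self (f : Ω → ℝ) : kf P f f = 0 := by
  refine le_antisymm (kf_le le_rfl ?_) (kf_nonneg P f f)
  simp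

theorem kf_triangle [IsProbabilityMeasure P] (f g h : Ω → ℝ) :
    kf P f h ≤ kf P f g + kf P g h := by
  apply le_of_forall_pos_le_add
  intro δ hδ
  have h1 := of_kf_lt (P := P) (f := f) (g := g) (r := kf P f g + δ / 2) (by linarith)
  have h2 := of_kf_lt (P := P) (f := g) (g := h) (r := kf P g h + δ / 2) (by linarith)
  have n1 := kf_nonneg P f g
  have n2 := kf_nonneg P g h
  apply kf_le (by linarith)
  calc P {t | kf P f g + kf P g h + δ < |f t - h t|}
      ≤ P ({t | kf P f g + δ / 2 < |f t - g t|} ∪ {t | kf P g h + δ / 2 < |g t - h t|}) := by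
        apply measure_mono
        intro t ht
        simp only [mem_ofPred_eq, mem_union] at ht ⊢
        by_contra hcon
        push Not at hcon
        have := abs_sub_le (f t) (g t) (h t)
        linarith [hcon.1, hcon.2]
    _ ≤ ENNReal.ofReal (kf P f g + δ / 2) + ENNReal.ofReal (kf P g h + δ / 2) :=
        (measure_union_le _ _).trans (add_le_add h1 h2)
    _ = ENNReal.ofReal (kf P f g + kf P g h + δ) := by
        rw [← ENNReal.ofReal_add (by linarith) (by linarith)]
        congr 1; ring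

/-- the Ky Fan distance after composition with a measurable map -/
theorem kf_map {Ω' : Type} [MeasurableSpace Ω'] {φ : Ω → Ω'} (hφ : Measurable φ) {f g : Ω' → ℝ}
    (hf : Measurable f) (hg : Measurable g) :
    kf P (f ∘ φ) (g ∘ φ) = kf (Measure.map φ P) f g := by
  unfold kf
  congr 1
  ext ε
  have hm : MeasurableSet {t | ε < |f t - g t|} :=
    measurableSet_lt measurable_const ((hf.sub hg).abs)
  rw [mem_ofPred_eq, mem_ofPred_eq, Measure.map_apply hφ hm]
  rfl

end Pool.Agent.Work.MP_bb77e0_gt
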