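import Mathlib
import Pool.Agent.Work.MP_bb77e0_gt.KF

/-!
# The observable distance is a pseudometric, invariant under mm-isomorphism
-/

open MeasureTheory Set TopologicalSpace ProbabilityTheory
open scoped ENNReal

namespace Pool.Agent.Work.MP_bb77e0_gt

instance : IsProbabilityMeasure leb := by
  refine ⟨?_⟩
  unfold leb
  rw [comap_subtype_coe_apply measurableSet_Ico, image_univ, Subtype.range_coe_subtype]
  change volume (Ico (0:ℝ) 1) = 1
  rw [Real.volume_Ico]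
  simp

instance (X : MMSpace) : PolishSpace X.carrier := by
  have : SecondCountableTopology X.carrier := UniformSpace.secondCountable_of_separable _
  infer_instance

instance (X : MMSpace) : Nonempty X.carrier := by
  by_contra h
  rw [not_nonempty_iff] at h
  have : X.μ univ = 0 := by rw [univ_eq_empty_iff.2 h, measure_empty]
  simp at this

/-- Every Borel probability measure on a standard Borel space is the image of the Lebesgue measure
of `I`. -/
theorem exists_param_of_measure {Y : Type} [MeasurableSpace Y] [StandardBorelSpace Y]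
    [Nonempty Y] (μ : Measure Y) [IsProbabilityMeasure μ] :
    ∃ φ : I → Y, Measurable φ ∧ Measure.map φ leb = μ := by
  obtain ⟨f, hf, hfμ⟩ := MeasureTheory.Measure.exists_measurable_map_eq μ
  -- the inclusion
  set ι : I → unitInterval := fun t => ⟨t.1, t.2.1, t.2.2.le⟩ with hι
  have hιm : Measurable ι := by
    apply Measurable.subtype_mk
    exact measurable_subtype_coe
  have hmap : Measure.map ι leb = volume := by
    ext A hA
    rw [Measure.map_apply hιm hA, unitInterval.volume_apply]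
    unfold leb
    rw [comap_subtype_coe_apply measurableSet_Ico]
    have hsub : Subtype.val '' (ι ⁻¹' A) ⊆ Subtype.val '' A := by
      rintro _ ⟨t, ht, rfl⟩
      exact ⟨ι t, ht, rfl⟩
    have hsup : Subtype.val '' A ⊆ Subtype.val '' (ι ⁻¹' A) ∪ {1} := by
      rintro _ ⟨t, ht, rfl⟩
      rcases lt_or_eq_of_le t.2.2 with h | h
      · left
        exact ⟨⟨t.1, t.2.1, h⟩, ht, rfl⟩
      · right; exact h
    apply le_antisymm (measure_mono hsub)
    calc volume (Subtype.val '' A) ≤ volume (Subtype.val '' (ι ⁻¹' A) ∪ {1}) := measure_mono hsup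
      _ ≤ volume (Subtype.val '' (ι ⁻¹' A)) + volume {(1:ℝ)} := measure_union_le _ _
      _ = volume (Subtype.val '' (ι ⁻¹' A)) := by rw [Real.volume_singleton, add_zero]
  exact ⟨f ∘ ι, hf.comp hιm, by rw [← Measure.map_map hf hιm, hmap, hfμ]⟩

/-- The relation underlying the observable distance. -/
def Near (X Y : MMSpace) (r : ℝ) : Prop :=
  ∃ (φ : I → X.carrier) (ψ : I → Y.carrier), IsParam X φ ∧ IsParam Y ψ ∧
    (∀ f : X.carrier → ℝ, LipschitzWith 1 f → ∃ g : Y.carrier → ℝ, LipschitzWith 1 g ∧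
      kf leb (f ∘ φ) (g ∘ ψ) ≤ r) ∧
    (∀ g : Y.carrier → ℝ, LipschitzWith 1 g → ∃ f : X.carrier → ℝ, LipschitzWith 1 f ∧
      kf leb (f ∘ φ) (g ∘ ψ) ≤ r)

theorem hausdorffKF_nonneg (S T : Set (I → ℝ)) : 0 ≤ hausdorffKF S T :=
  Real.sInf_nonneg fun _ h => h.1

theorem dconc_bdd (X Y : MMSpace) :
    BddBelow {r : ℝ | ∃ (φ : I → X.carrier) (ψ : I → Y.carrier), IsParam X φ ∧ IsParam Y ψ ∧
      r = hausdorffKF (lipThrough X φ) (lipThrough Y ψ)} := by
  refine ⟨0, ?_⟩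
  rintro r ⟨φ, ψ, _, _, rfl⟩
  exact hausdorffKF_nonneg _ _

theorem dconc_nonneg (X Y : MMSpace) : 0 ≤ dconc X Y := by
  apply Real.sInf_nonneg
  rintro r ⟨φ, ψ, _, _, rfl⟩
  exact hausdorffKF_nonneg _ _

theorem exists_param (X : MMSpace) : ∃ φ : I → X.carrier, IsParam X φ :=
  exists_param_of_measure X.μ

theorem kf_le_one {Ω : Type} [MeasurableSpace Ω] (P : Measure Ω) [IsProbabilityMeasure P]
    (f g : Ω → ℝ) : kf P f g ≤ 1 :=
  kf_le zero_le_one (by rw [ENNReal.ofReal_one]; exact prob_le_one)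

theorem dconc_le {X Y : MMSpace} {r : ℝ} (hr : 0 ≤ r) (h : Near X Y r) : dconc X Y ≤ r := by
  obtain ⟨φ, ψ, hφ, hψ, h1, h2⟩ := h
  have h3 : hausdorffKF (lipThrough X φ) (lipThrough Y ψ) ≤ r := by
    apply csInf_le ⟨0, fun _ h => h.1⟩
    refine ⟨hr, ?_, ?_⟩
    · rintro _ ⟨f, hf, rfl⟩
      obtain ⟨g, hg, hfg⟩ := h1 f hf
      exact ⟨g ∘ ψ, ⟨g, hg, rfl⟩, hfg⟩
    · rintro _ ⟨g, hg, rfl⟩
      obtain ⟨f, hf, hfg⟩ := h2 g hg
      exact ⟨f ∘ φ, ⟨f, hf, rfl⟩, hfg⟩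
  exact (csInf_le (dconc_bdd X Y) ⟨φ, ψ, hφ, hψ, rfl⟩).trans h3

theorem near_of_lt {X Y : MMSpace} {r : ℝ} (h : dconc X Y < r) : Near X Y r := by
  have hne : {r : ℝ | ∃ (φ : I → X.carrier) (ψ : I → Y.carrier), IsParam X φ ∧ IsParam Y ψ ∧
      r = hausdorffKF (lipThrough X φ) (lipThrough Y ψ)}.Nonempty := by
    obtain ⟨φ, hφ⟩ := exists_param X
    obtain ⟨ψ, hψ⟩ := exists_param Y
    exact ⟨_, φ, ψ, hφ, hψ, rfl⟩
  obtain ⟨_, ⟨φ, ψ, hφ, hψ, rfl⟩, hlt⟩ := exists_lt_of_csInf_lt hne h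
  have hne2 : {r : ℝ | 0 ≤ r ∧ (∀ f ∈ lipThrough X φ, ∃ g ∈ lipThrough Y ψ, kf leb f g ≤ r) ∧
      (∀ g ∈ lipThrough Y ψ, ∃ f ∈ lipThrough X φ, kf leb f g ≤ r)}.Nonempty := by
    refine ⟨1, zero_le_one, ?_, ?_⟩
    · intro f _
      exact ⟨fun _ => 0, ⟨fun _ => 0, LipschitzWith.const 0 |>.weaken zero_le_one, rfl⟩,
        kf_le_one _ _ _⟩
    · intro f _
      exact ⟨fun _ => 0, ⟨fun _ => 0, LipschitzWith.const 0 |>.weaken zero_le_one, rfl⟩,
        kf_le_one _ _ _⟩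
  obtain ⟨ρ, ⟨_, h1, h2⟩, hlt2⟩ := exists_lt_of_csInf_lt hne2 hlt
  refine ⟨φ, ψ, hφ, hψ, ?_, ?_⟩
  · intro f hf
    obtain ⟨_, ⟨g, hg, rfl⟩, hfg⟩ := h1 (f ∘ φ) ⟨f, hf, rfl⟩
    exact ⟨g, hg, hfg.trans hlt2.le⟩
  · intro g hg
    obtain ⟨_, ⟨f, hf, rfl⟩, hfg⟩ := h2 (g ∘ ψ) ⟨g, hg, rfl⟩
    exact ⟨f, hf, hfg.trans hlt2.le⟩

theorem Near.symm {X Y : MMSpace} {r : ℝ} (h : Near X Y r) : Near Y X r := by
  obtain ⟨φ, ψ, hφ, hψ, h1, h2⟩ := h
  refine ⟨ψ, φ, hψ, hφ, ?_, ?_⟩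
  · intro g hg
    obtain ⟨f, hf, h⟩ := h2 g hg
    exact ⟨f, hf, by rwa [kf_comm]⟩
  · intro f hf
    obtain ⟨g, hg, h⟩ := h1 f hf
    exact ⟨g, hg, by rwa [kf_comm]⟩

theorem near_self (X : MMSpace) : Near X X 0 := by
  obtain ⟨φ, hφ⟩ := exists_param X
  exact ⟨φ, φ, hφ, hφ, fun f hf => ⟨f, hf, (kf_self _).le⟩, fun f hf => ⟨f, hf, (kf_self _).le⟩⟩

/-- Gluing. -/
theorem exists_glue {X Y Z : MMSpace} {φ : I → X.carrier} {ψ ψ' : I → Y.carrier}
    {χ : I → Z.carrier} (hφ : IsParam X φ) (hψ : IsParam Y ψ) (hψ' : IsParam Y ψ')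
    (hχ : IsParam Z χ) :
    ∃ (α : I → X.carrier) (β : I → Y.carrier) (γ : I → Z.carrier),
      Measurable α ∧ Measurable β ∧ Measurable γ ∧
      Measure.map (fun t => (β t, α t)) leb = Measure.map (fun t => (ψ t, φ t)) leb ∧
      Measure.map (fun t => (β t, γ t)) leb = Measure.map (fun t => (ψ' t, χ t)) leb := by
  set π₁ : Measure (Y.carrier × X.carrier) := Measure.map (fun t => (ψ t, φ t)) leb with hπ₁
  set π₂ : Measure (Y.carrier × Z.carrier) := Measure.map (fun t => (ψ' t, χ t)) leb with hπ₂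
  have m1 : Measurable fun t => (ψ t, φ t) := hψ.1.prodMk hφ.1
  have m2 : Measurable fun t => (ψ' t, χ t) := hψ'.1.prodMk hχ.1
  have : IsProbabilityMeasure π₁ := Measure.isProbabilityMeasure_map m1.aemeasurable
  have : IsProbabilityMeasure π₂ := Measure.isProbabilityMeasure_map m2.aemeasurable
  have f1 : π₁.fst = Y.μ := by
    rw [hπ₁, Measure.fst, Measure.map_map measurable_fst m1]
    exact hψ.2
  have f2 : π₂.fst = Y.μ := by
    rw [hπ₂, Measure.fst, Measure.map_map measurable_fst m2]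
    exact hψ'.2
  have d1 : Y.μ ⊗ₘ π₁.condKernel = π₁ := by
    rw [← f1]; exact π₁.disintegrate π₁.condKernel
  have d2 : Y.μ ⊗ₘ π₂.condKernel = π₂ := by
    rw [← f2]; exact π₂.disintegrate π₂.condKernel
  set Gm : Measure (Y.carrier × (X.carrier × Z.carrier)) :=
    Y.μ ⊗ₘ (π₁.condKernel ×ₖ π₂.condKernel) with hGm
  have g1 : Measure.map (Prod.map id Prod.fst) Gm = π₁ := by
    rw [hGm, ← Measure.compProd_map measurable_fst, ← Kernel.fst_eq, Kernel.fst_prod, d1]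
  have g2 : Measure.map (Prod.map id Prod.snd) Gm = π₂ := by
    rw [hGm, ← Measure.compProd_map measurable_snd, ← Kernel.snd_eq, Kernel.snd_prod, d2]
  obtain ⟨θ, hθ, hθG⟩ := exists_param_of_measure Gm
  refine ⟨fun t => (θ t).2.1, fun t => (θ t).1, fun t => (θ t).2.2, by fun_prop, by fun_prop,
    by fun_prop, ?_, ?_⟩
  · rw [← g1, ← hθG, Measure.map_map (by fun_prop) hθ]
    rfl
  · rw [← g2, ← hθG, Measure.map_map (by fun_prop) hθ]
    rfl

/-- the Ky Fan distance of two functions only depends on the joint law of the parameters -/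
theorem kf_of_law {X Y : MMSpace} {φ φ' : I → X.carrier} {ψ ψ' : I → Y.carrier}
    (hφ : Measurable φ) (hφ' : Measurable φ') (hψ : Measurable ψ) (hψ' : Measurable ψ')
    (h : Measure.map (fun t => (ψ' t, φ' t)) leb = Measure.map (fun t => (ψ t, φ t)) leb)
    {f : X.carrier → ℝ} {g : Y.carrier → ℝ} (hf : LipschitzWith 1 f) (hg : LipschitzWith 1 g) :
    kf leb (f ∘ φ') (g ∘ ψ') = kf leb (f ∘ φ) (g ∘ ψ) := by
  have e1 : kf leb (f ∘ φ') (g ∘ ψ') =
      kf (Measure.map (fun t => (ψ' t, φ' t)) leb) (fun p => f p.2) (fun p => g p.1) :=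
    kf_map (P := leb) (φ := fun t => (ψ' t, φ' t)) (f := fun p => f p.2) (g := fun p => g p.1)
      (hψ'.prodMk hφ') (hf.continuous.measurable.comp measurable_snd)
      (hg.continuous.measurable.comp measurable_fst)
  have e2 : kf leb (f ∘ φ) (g ∘ ψ) =
      kf (Measure.map (fun t => (ψ t, φ t)) leb) (fun p => f p.2) (fun p => g p.1) :=
    kf_map (P := leb) (φ := fun t => (ψ t, φ t)) (f := fun p => f p.2) (g := fun p => g p.1)
      (hψ.prodMk hφ) (hf.continuous.measurable.comp measurable_snd)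
      (hg.continuous.measurable.comp measurable_fst)
  rw [e1, e2, h]

theorem Near.trans {X Y Z : MMSpace} {a b : ℝ} (h1 : Near X Y a) (h2 : Near Y Z b) :
    Near X Z (a + b) := by
  obtain ⟨φ, ψ, hφ, hψ, p1, p2⟩ := h1
  obtain ⟨ψ', χ, hψ', hχ, q1, q2⟩ := h2
  obtain ⟨α, β, γ, mα, mβ, mγ, l1, l2⟩ := exists_glue hφ hψ hψ' hχ
  have hα : IsParam X α := by
    refine ⟨mα, ?_⟩
    have := congrArg (Measure.map Prod.snd) l1
    rw [Measure.map_map measurable_snd (mβ.prodMk mα),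
      Measure.map_map measurable_snd (hψ.1.prodMk hφ.1)] at this
    exact this.trans hφ.2
  have hγ : IsParam Z γ := by
    refine ⟨mγ, ?_⟩
    have := congrArg (Measure.map Prod.snd) l2
    rw [Measure.map_map measurable_snd (mβ.prodMk mγ),
      Measure.map_map measurable_snd (hψ'.1.prodMk hχ.1)] at this
    exact this.trans hχ.2
  refine ⟨α, γ, hα, hγ, ?_, ?_⟩
  · intro f hf
    obtain ⟨g, hg, k1⟩ := p1 f hf
    obtain ⟨h, hh, k2⟩ := q1 g hg
    refine ⟨h, hh, ?_⟩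
    rw [← kf_of_law hφ.1 mα hψ.1 mβ l1 hf hg] at k1
    have e2 : kf leb (g ∘ β) (h ∘ γ) = kf leb (g ∘ ψ') (h ∘ χ) := by
      rw [kf_comm, kf_comm (g ∘ ψ')]
      exact kf_of_law hχ.1 mγ hψ'.1 mβ l2 hh hg
    rw [← e2] at k2
    exact (kf_triangle _ (g ∘ β) _).trans (add_le_add k1 k2)
  · intro h hh
    obtain ⟨g, hg, k2⟩ := q2 h hh
    obtain ⟨f, hf, k1⟩ := p2 g hg
    refine ⟨f, hf, ?_⟩
    rw [← kf_of_law hφ.1 mα hψ.1 mβ l1 hf hg] at k1
    have e2 : kf leb (g ∘ β) (h ∘ γ) = kf leb (g ∘ ψ') (h ∘ χ) := by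
      rw [kf_comm, kf_comm (g ∘ ψ')]
      exact kf_of_law hχ.1 mγ hψ'.1 mβ l2 hh hg
    rw [← e2] at k2
    exact (kf_triangle _ (g ∘ β) _).trans (add_le_add k1 k2)

theorem dconc_triangle (X Y Z : MMSpace) : dconc X Z ≤ dconc X Y + dconc Y Z := by
  apply le_of_forall_pos_le_add
  intro δ hδ
  have h1 := near_of_lt (X := X) (Y := Y) (r := dconc X Y + δ / 2) (by linarith)
  have h2 := near_of_lt (X := Y) (Y := Z) (r := dconc Y Z + δ / 2) (by linarith)
  have n1 := dconc_nonneg X Y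
  have n2 := dconc_nonneg Y Z
  have := dconc_le (by linarith) (h1.trans h2)
  linarith

theorem dconc_self (X : MMSpace) : dconc X X = 0 :=
  le_antisymm (dconc_le le_rfl (near_self X)) (dconc_nonneg X X)

theorem dconc_comm (X Y : MMSpace) : dconc X Y = dconc Y X := by
  have key : ∀ X Y : MMSpace, dconc X Y ≤ dconc Y X := by
    intro X Y
    apply le_of_forall_pos_le_add
    intro δ hδ
    have h1 := near_of_lt (X := Y) (Y := X) (r := dconc Y X + δ) (by linarith)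
    exact dconc_le (by linarith [dconc_nonneg Y X]) h1.symm
  exact le_antisymm (key X Y) (key Y X)

end Pool.Agent.Work.MP_bb77e0_gt
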