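import Mathlib
import Pool.Agent.Work.MP_bb77e0_gt.Metric

/-!
# The space of mm-isomorphism classes
-/

open MeasureTheory Set TopologicalSpace ProbabilityTheory
open scoped ENNReal

namespace Pool.Agent.Work.MP_bb77e0_gt

theorem MMSpace.Iso.refl (X : MMSpace) : X.Iso X :=
  ⟨IsometryEquiv.refl _, Measure.map_id⟩

theorem MMSpace.Iso.symm {X Y : MMSpace} (h : X.Iso Y) : Y.Iso X := by
  obtain ⟨f, hf⟩ := h
  refine ⟨f.symm, ?_⟩
  rw [← hf, Measure.map_map f.symm.continuous.measurable f.continuous.measurable]
  have : (f.symm : Y.μ.support → X.μ.support) ∘ f = id := by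
    funext x
    simp
  rw [this, Measure.map_id]

theorem MMSpace.Iso.trans {X Y Z : MMSpace} (h : X.Iso Y) (h' : Y.Iso Z) : X.Iso Z := by
  obtain ⟨f, hf⟩ := h
  obtain ⟨g, hg⟩ := h'
  refine ⟨f.trans g, ?_⟩
  rw [← hg, ← hf, Measure.map_map g.continuous.measurable f.continuous.measurable]
  rfl

/-- mm-isomorphism as a setoid. -/
instance mmSetoid : Setoid MMSpace :=
  ⟨MMSpace.Iso, MMSpace.Iso.refl, MMSpace.Iso.symm, MMSpace.Iso.trans⟩

theorem extend_lip {Y : Type} [MetricSpace Y] {S : Set Y} (u : S → ℝ) (hu : LipschitzWith 1 u) :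
    ∃ h : Y → ℝ, LipschitzWith 1 h ∧ ∀ s : S, h s = u s := by
  classical
  set h₀ : Y → ℝ := fun y => if hy : y ∈ S then u ⟨y, hy⟩ else 0 with hh₀
  have h1 : LipschitzOnWith 1 h₀ S := by
    intro x hx y hy
    simp only [hh₀, dif_pos hx, dif_pos hy]
    exact hu ⟨x, hx⟩ ⟨y, hy⟩
  obtain ⟨h, hh, heq⟩ := h1.extend_real
  refine ⟨h, hh, fun s => ?_⟩
  rw [← heq s.2]
  simp only [hh₀, dif_pos s.2]

theorem near_of_iso {X Y : MMSpace} (h : X.Iso Y) : Near X Y 0 := by
  obtain ⟨f, hf⟩ := h
  have hsX : MeasurableSet X.μ.support := Measure.isClosed_support.measurableSet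
  have hsY : MeasurableSet Y.μ.support := Measure.isClosed_support.measurableSet
  have : SecondCountableTopology X.carrier := UniformSpace.secondCountable_of_separable _
  have : SecondCountableTopology Y.carrier := UniformSpace.secondCountable_of_separable _
  have hmapX : Measure.map (Subtype.val) X.suppMeasure = X.μ := by
    unfold MMSpace.suppMeasure
    rw [map_comap_subtype_coe hsX]
    exact Measure.restrict_eq_self_of_ae_mem (s := X.μ.support) Measure.support_mem_ae
  have hmapY : Measure.map (Subtype.val) Y.suppMeasure = Y.μ := by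
    unfold MMSpace.suppMeasure
    rw [map_comap_subtype_coe hsY]
    exact Measure.restrict_eq_self_of_ae_mem (s := Y.μ.support) Measure.support_mem_ae
  have : PolishSpace X.μ.support := Measure.isClosed_support.polishSpace
  have hne : Nonempty X.μ.support := by
    have : (X.μ.support).Nonempty := Measure.nonempty_support (IsProbabilityMeasure.ne_zero X.μ)
    exact this.to_subtype
  have : IsProbabilityMeasure X.suppMeasure := by
    refine ⟨?_⟩
    have h1 : Measure.map (Subtype.val) X.suppMeasure univ = X.μ univ := by rw [hmapX]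
    rw [Measure.map_apply measurable_subtype_coe MeasurableSet.univ, measure_univ] at h1
    exact h1
  obtain ⟨φ₀, hφ₀, hφ₀'⟩ := exists_param_of_measure X.suppMeasure
  refine ⟨fun t => (φ₀ t : X.carrier), fun t => (f (φ₀ t) : Y.carrier), ⟨?_, ?_⟩, ⟨?_, ?_⟩, ?_, ?_⟩
  · exact measurable_subtype_coe.comp hφ₀
  · refine Eq.trans ?_ hmapX
    rw [← hφ₀', Measure.map_map measurable_subtype_coe hφ₀]
    rfl
  · exact measurable_subtype_coe.comp (f.continuous.measurable.comp hφ₀)
  · refine Eq.trans ?_ hmapY
    rw [← hf, ← hφ₀', Measure.map_map f.continuous.measurable hφ₀,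
      Measure.map_map measurable_subtype_coe (f.continuous.measurable.comp hφ₀)]
    rfl
  · intro g hg
    obtain ⟨h, hh, heq⟩ := extend_lip (S := Y.μ.support) (fun y => g (f.symm y)) (by
      have h1 : LipschitzWith 1 (fun x : X.μ.support => g x) :=
        hg.comp (LipschitzWith.subtype_val _) |>.weaken (by simp)
      have h2 := h1.comp f.symm.isometry.lipschitz
      exact h2.weaken (by simp))
    refine ⟨h, hh, ?_⟩
    have e : (h ∘ fun t => (f (φ₀ t) : Y.carrier)) = g ∘ fun t => (φ₀ t : X.carrier) := by
      funext t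
      simp only [Function.comp_apply]
      rw [heq (f (φ₀ t))]
      simp
    rw [e, kf_self]
  · intro g hg
    obtain ⟨h, hh, heq⟩ := extend_lip (S := X.μ.support) (fun x => g (f x)) (by
      have h1 : LipschitzWith 1 (fun x : Y.μ.support => g x) :=
        hg.comp (LipschitzWith.subtype_val _) |>.weaken (by simp)
      have h2 := h1.comp f.isometry.lipschitz
      exact h2.weaken (by simp))
    refine ⟨h, hh, ?_⟩
    have e : (h ∘ fun t => (φ₀ t : X.carrier)) = g ∘ fun t => (f (φ₀ t) : Y.carrier) := by
      funext t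
      simp only [Function.comp_apply]
      rw [heq (φ₀ t)]
    rw [e, kf_self]

theorem dconc_congr {X X' Y Y' : MMSpace} (h : X.Iso X') (h' : Y.Iso Y') :
    dconc X Y = dconc X' Y' := by
  have key : ∀ {X X' Y Y' : MMSpace}, X.Iso X' → Y.Iso Y' → dconc X Y ≤ dconc X' Y' := by
    intro X X' Y Y' h h'
    have h1 := dconc_le le_rfl (near_of_iso h)
    have h2 := dconc_le le_rfl (near_of_iso h'.symm)
    have h3 := dconc_triangle X X' Y
    have h4 := dconc_triangle X' Y' Y
    linarith
  exact le_antisymm (key h h') (key h.symm h'.symm)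

/-- The space of mm-isomorphism classes of mm-spaces. -/
def MM : Type 1 := Quotient mmSetoid

/-- The observable distance on mm-isomorphism classes. -/
noncomputable def MM.dconc (a b : MM) : ℝ :=
  Quotient.lift₂ (Pool.Agent.Work.MP_bb77e0_gt.dconc) (fun _ _ _ _ h h' => dconc_congr h h') a b

/-- The space of mm-spaces with the observable distance; its topology is the concentration
topology. -/
noncomputable instance : PseudoMetricSpace MM where
  dist := MM.dconc
  dist_self a := by
    induction a using Quotient.inductionOn with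
    | h X => exact dconc_self X
  dist_comm a b := by
    induction a, b using Quotient.inductionOn₂ with
    | h X Y => exact dconc_comm X Y
  dist_triangle a b c := by
    induction a, b, c using Quotient.inductionOn₃ with
    | h X Y Z => exact dconc_triangle X Y Z

/-- the class of an mm-space -/
def MM.mk (X : MMSpace) : MM := Quotient.mk mmSetoid X

theorem MM.dist_mk (X Y : MMSpace) :
    dist (MM.mk X) (MM.mk Y) = Pool.Agent.Work.MP_bb77e0_gt.dconc X Y := rfl

theorem MM.exists_rep (a : MM) : ∃ X : MMSpace, MM.mk X = a := Quotient.exists_rep a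

end Pool.Agent.Work.MP_bb77e0_gt
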