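import Mathlib
import Pool.Agent.Work.MP_bb77e0_gt.Quot

/-!
# Separated families of Lipschitz functions
-/

open MeasureTheory Set TopologicalSpace ProbabilityTheory Filter
open scoped ENNReal Topology

namespace Pool.Agent.Work.MP_bb77e0_gt

/-- There are `n` functions `X → [0, 1]`, `1`-Lipschitz, with pairwise Ky Fan distance `≥ ε`. -/
def Sep (X : MMSpace) (ε : ℝ) (n : ℕ) : Prop :=
  ∃ f : Fin n → X.carrier → ℝ, (∀ k, LipschitzWith 1 (f k)) ∧ (∀ k x, 0 ≤ f k x ∧ f k x ≤ 1) ∧
    ∀ k l, k ≠ l → ε ≤ kf X.μ (f k) (f l)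

theorem sep_bound (X : MMSpace) {ε : ℝ} (hε : 0 < ε) : ∃ N : ℕ, ∀ n, N ≤ n → ¬ Sep X ε n := by
  -- balls
  set η : ℝ := ε / 8 with hη
  have hηp : 0 < η := by positivity
  set x : ℕ → X.carrier := denseSeq X.carrier with hx
  set A : ℕ → Set X.carrier := fun N => (⋃ i ∈ Finset.range N, Metric.ball (x i) η)ᶜ with hA
  have hAm : ∀ N, MeasurableSet (A N) := by
    intro N
    exact (Finset.measurableSet_biUnion _ fun i _ => measurableSet_ball).compl
  have hanti : Antitone A := by
    intro N M hNM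
    apply compl_subset_compl.2
    apply biUnion_subset_biUnion_left
    intro i hi
    simp only [Finset.coe_range, mem_Iio] at hi ⊢
    omega
  have hinter : ⋂ N, A N = ∅ := by
    rw [eq_empty_iff_forall_notMem]
    intro y hy
    rw [mem_iInter] at hy
    obtain ⟨i, hi⟩ : ∃ i, dist y (x i) < η := by
      have := (denseRange_denseSeq X.carrier).exists_dist_lt y hηp
      exact this
    apply hy (i + 1)
    simp only [mem_iUnion]
    exact ⟨i, by simp, hi⟩
  have hlim : Tendsto (fun N => X.μ (A N)) atTop (𝓝 0) := by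
    have := tendsto_measure_iInter_atTop (μ := X.μ) (fun N => (hAm N).nullMeasurableSet) hanti
      ⟨0, measure_ne_top _ _⟩
    rwa [hinter, measure_empty] at this
  obtain ⟨N, hN⟩ : ∃ N, X.μ (A N) < ENNReal.ofReal (ε / 2) :=
    ((hlim.eventually_lt_const (by simp; exact hε)).exists)
  -- codes
  set M : ℕ := ⌊1 / η⌋₊ with hM
  refine ⟨Fintype.card (Fin N → Fin (M + 1)) + 1, ?_⟩
  rintro n hn ⟨f, hf, hf01, hsep⟩
  have hcode : ∀ (k : Fin n) (i : Fin N), ⌊f k (x i) / η⌋₊ < M + 1 := by
    intro k i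
    have : ⌊f k (x i) / η⌋₊ ≤ M := by
      apply Nat.floor_le_floor
      exact div_le_div_of_nonneg_right (hf01 k _).2 hηp.le
    omega
  obtain ⟨k, l, hkl, heq⟩ := Fintype.exists_ne_map_eq_of_card_lt
    (fun (k : Fin n) (i : Fin N) => (⟨⌊f k (x i) / η⌋₊, hcode k i⟩ : Fin (M + 1)))
    (by rw [Fintype.card_fin]; omega)
  have hclose : ∀ i : Fin N, |f k (x i) - f l (x i)| < η := by
    intro i
    have h1 := congrFun heq i
    simp only [Fin.mk.injEq] at h1
    have a1 : 0 ≤ f k (x i) / η := div_nonneg (hf01 k _).1 hηp.le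
    have a2 : 0 ≤ f l (x i) / η := div_nonneg (hf01 l _).1 hηp.le
    have b1 := Nat.floor_le a1
    have b2 := Nat.lt_floor_add_one (f k (x i) / η)
    have b3 := Nat.floor_le a2
    have b4 := Nat.lt_floor_add_one (f l (x i) / η)
    rw [h1] at b1 b2
    have c1 : |f k (x i) / η - f l (x i) / η| < 1 := by
      rw [abs_lt]; constructor <;> linarith
    rw [← sub_div, abs_div, abs_of_pos hηp, div_lt_one hηp] at c1
    exact c1
  have hkf : kf X.μ (f k) (f l) ≤ ε / 2 := by
    apply kf_le (by positivity)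
    refine le_trans (measure_mono ?_) hN.le
    intro y hy
    simp only [hA, mem_compl_iff, mem_iUnion, not_exists]
    intro i hi hyi
    rw [Finset.mem_range] at hi
    have h1 := hclose ⟨i, hi⟩
    have h2 := (hf k).dist_le_mul y (x i)
    have h3 := (hf l).dist_le_mul y (x i)
    rw [Metric.mem_ball] at hyi
    simp only [NNReal.coe_one, one_mul, Real.dist_eq] at h2 h3
    have h4 : |f k y - f l y| ≤ |f k y - f k (x i)| + |f k (x i) - f l (x i)| +
        |f l y - f l (x i)| := by
      have e1 := abs_sub_le (f k y) (f k (x i)) (f l y)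
      have e2 := abs_sub_le (f k (x i)) (f l (x i)) (f l y)
      rw [abs_sub_comm (f l (x i)) (f l y)] at e2
      linarith
    have h5 : ε / 2 < |f k y - f l y| := hy
    simp only at h1
    linarith
  have := hsep k l hkl
  linarith

theorem kf_mono {Ω : Type} [MeasurableSpace Ω] {P : Measure Ω} [IsProbabilityMeasure P]
    {f g f' g' : Ω → ℝ} (h : ∀ t, |f t - g t| ≤ |f' t - g' t|) : kf P f g ≤ kf P f' g' := by
  apply le_of_forall_pos_le_add
  intro δ hδ
  apply kf_le (by linarith [kf_nonneg P f' g'])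
  refine le_trans (measure_mono ?_) (of_kf_lt (r := kf P f' g' + δ) (by linarith))
  intro t ht
  exact lt_of_lt_of_le ht (h t)

theorem sep_near {X Y : MMSpace} {ε : ℝ} (h : dconc X Y < ε / 4) {n : ℕ}
    (hY : Sep Y ε n) : Sep X (ε / 2) n := by
  obtain ⟨φ, ψ, hφ, hψ, _, h2⟩ := near_of_lt h
  obtain ⟨f, hf, hf01, hsep⟩ := hY
  choose g hg hgf using fun k => h2 (f k) (hf k)
  have hgm : ∀ k, LipschitzWith 1 (fun x => max 0 (min 1 (g k x))) := fun k =>
    ((hg k).const_min 1).const_max 0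
  refine ⟨fun k x => max 0 (min 1 (g k x)), hgm, fun k x => ⟨le_max_left _ _, ?_⟩, ?_⟩
  · exact max_le zero_le_one (min_le_left _ _)
  intro k l hkl
  have key : ∀ k, kf leb ((fun x => max 0 (min 1 (g k x))) ∘ φ) (f k ∘ ψ) ≤ ε / 4 := by
    intro k
    refine le_trans (kf_mono ?_) (hgf k)
    intro t
    simp only [Function.comp_apply]
    obtain ⟨h0, h1⟩ := hf01 k (ψ t)
    rcases le_total (g k (φ t)) 0 with c | c
    · rw [min_eq_right (by linarith), max_eq_left c, zero_sub, abs_neg, abs_of_nonneg h0,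
        abs_of_nonpos (by linarith)]
      linarith
    · rcases le_total (g k (φ t)) 1 with c' | c'
      · rw [min_eq_right c', max_eq_right c]
      · rw [min_eq_left c', max_eq_right zero_le_one, abs_of_nonneg (by linarith),
          abs_of_nonneg (by linarith)]
        linarith
  have e1 : kf Y.μ (f k) (f l) = kf leb (f k ∘ ψ) (f l ∘ ψ) := by
    rw [kf_map hψ.1 (hf k).continuous.measurable (hf l).continuous.measurable, hψ.2]
  have e2 : kf X.μ (fun x => max 0 (min 1 (g k x))) (fun x => max 0 (min 1 (g l x))) =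
      kf leb ((fun x => max 0 (min 1 (g k x))) ∘ φ) ((fun x => max 0 (min 1 (g l x))) ∘ φ) := by
    rw [kf_map hφ.1 (hgm k).continuous.measurable (hgm l).continuous.measurable, hφ.2]
  have h3 := hsep k l hkl
  rw [e1] at h3
  change ε / 2 ≤ kf X.μ (fun x => max 0 (min 1 (g k x))) (fun x => max 0 (min 1 (g l x)))
  rw [e2]
  have t1 := kf_triangle (P := leb) (f k ∘ ψ) ((fun x => max 0 (min 1 (g k x))) ∘ φ) (f l ∘ ψ)
  have t2 := kf_triangle (P := leb) ((fun x => max 0 (min 1 (g k x))) ∘ φ)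
    ((fun x => max 0 (min 1 (g l x))) ∘ φ) (f l ∘ ψ)
  have k1 := key k
  have k2 := key l
  rw [kf_comm] at k1
  linarith

/-- Boundedness on compact sets. -/
theorem sep_compact {K : Set MM} (hK : IsCompact K) {ε : ℝ} (hε : 0 < ε) :
    ∃ n : ℕ, ∀ Y : MMSpace, MM.mk Y ∈ K → ¬ Sep Y ε n := by
  choose rep hrep using MM.exists_rep
  choose N hN using fun X : MMSpace => sep_bound X (ε := ε / 2) (by positivity)
  obtain ⟨t, _, hcov⟩ := hK.elim_nhds_subcover (fun a => Metric.ball a (ε / 4))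
    (fun a _ => Metric.ball_mem_nhds a (by positivity))
  refine ⟨t.sup fun a => N (rep a), ?_⟩
  intro Y hY hsep
  obtain ⟨a, ha, hYa⟩ := mem_iUnion₂.1 (hcov hY)
  rw [Metric.mem_ball, ← hrep a, MM.dist_mk, dconc_comm] at hYa
  exact hN (rep a) _ (Finset.le_sup (f := fun a => N (rep a)) ha) (sep_near hYa hsep)

end Pool.Agent.Work.MP_bb77e0_gt
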