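import Mathlib
import Pool.Agent.Work.MP_bb77e0_gt.Sep

/-!
# The space of mm-spaces with the observable distance is not sigma-compact
-/

open MeasureTheory Set TopologicalSpace ProbabilityTheory Filter
open scoped ENNReal Topology

namespace Pool.Agent.Work.MP_bb77e0_gt

/-- A countable set, which gets the `0`-`1` metric. -/
structure DN : Type where
  fst : ℕ
  snd : Finset ℕ
deriving DecidableEq

noncomputable instance : MetricSpace DN where
  dist x y := if x = y then 0 else 1
  dist_self x := by simp
  dist_comm x y := by simp only [eq_comm]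
  dist_triangle x y z := by
    by_cases h1 : x = y
    · subst h1; simp
    · by_cases h2 : y = z
      · subst h2; simp
      · simp only [h1, h2, if_false]
        split_ifs <;> norm_num
  eq_of_dist_eq_zero := by
    intro x y h
    by_contra hne
    simp [hne] at h

theorem DN.dist_def (x y : DN) : dist x y = if x = y then 0 else 1 := rfl

theorem DN.eq_of_dist_lt {x y : DN} (h : dist x y < 1) : x = y := by
  by_contra hne
  rw [DN.dist_def, if_neg hne] at h
  exact lt_irrefl _ h

instance : DiscreteTopology DN := by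
  apply DiscreteTopology.of_forall_le_dist (r := 1) one_pos
  intro x y hxy
  rw [DN.dist_def, if_neg hxy]

instance : Countable DN := by
  have : Function.Injective (fun x : DN => (x.fst, x.snd)) := by
    rintro ⟨a, b⟩ ⟨c, d⟩ h
    simp only [Prod.mk.injEq] at h
    rw [h.1, h.2]
  exact this.countable

instance : CompleteSpace DN := by
  apply Metric.complete_of_cauchySeq_tendsto
  intro u hu
  obtain ⟨N, hN⟩ := Metric.cauchySeq_iff'.1 hu 1 one_pos
  refine ⟨u N, tendsto_const_nhds.congr' ?_⟩
  filter_upwards [eventually_ge_atTop N] with n hn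
  exact (DN.eq_of_dist_lt (hN n hn)).symm

instance : MeasurableSpace DN := ⊤

instance : BorelSpace DN := ⟨by
  rw [borel_eq_top_of_discrete]; rfl⟩

/-- The uniform probability on the subsets of `{0, ..., n-1}`, placed at height `j`. -/
noncomputable def nu (j n : ℕ) : Measure DN :=
  ((2:ℝ≥0∞) ^ n)⁻¹ • ∑ s ∈ (Finset.range n).powerset, Measure.dirac (DN.mk j s)

theorem nu_apply (j n : ℕ) (A : Set DN) [DecidablePred fun s => DN.mk j s ∈ A] :
    nu j n A = ((2:ℝ≥0∞) ^ n)⁻¹ *
      (((Finset.range n).powerset.filter fun s => DN.mk j s ∈ A).card : ℝ≥0∞) := by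
  unfold nu
  rw [Measure.smul_apply, Measure.finsetSum_apply]
  simp only [Measure.dirac_apply, smul_eq_mul]
  congr 1
  simp only [Set.indicator_apply, Pi.one_apply]
  rw [Finset.sum_ite]
  simp

theorem nu_univ (j n : ℕ) : nu j n univ = 1 := by
  classical
  rw [nu_apply]
  simp only [mem_univ, Finset.filter_true, Finset.card_powerset, Finset.card_range]
  push_cast
  exact ENNReal.inv_mul_cancel (by positivity) (by simp)

/-- The measure: piece `j` has mass `2^-(j+1)`. -/
noncomputable def muA (a : ℕ → ℕ) : Measure DN :=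
  Measure.sum fun j => ((2:ℝ≥0∞)⁻¹) ^ (j + 1) • nu j (a j)

instance (a : ℕ → ℕ) : IsProbabilityMeasure (muA a) := by
  refine ⟨?_⟩
  unfold muA
  rw [Measure.sum_apply _ MeasurableSet.univ]
  simp only [Measure.smul_apply, nu_univ, smul_eq_mul, mul_one]
  rw [ENNReal.tsum_geometric_add_one]
  rw [ENNReal.one_sub_inv_two, inv_inv]
  exact ENNReal.inv_mul_cancel (by norm_num) (by norm_num)

/-- The mm-space `X_a`. -/
noncomputable def XA (a : ℕ → ℕ) : MMSpace where
  carrier := DN
  μ := muA a

theorem half_count {n k l : ℕ} (hk : k < n) (hkl : k ≠ l) :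
    2 * ((Finset.range n).powerset.filter fun s => ¬ (k ∈ s ↔ l ∈ s)).card = 2 ^ n := by
  have h1 : ((Finset.range n).powerset.filter fun s => ¬ (k ∈ s ↔ l ∈ s)).card =
      ((Finset.range n).powerset.filter fun s => ¬ ¬ (k ∈ s ↔ l ∈ s)).card := by
    apply Finset.card_bij (fun s _ => symmDiff s {k})
    · intro s hs
      simp only [Finset.mem_filter, Finset.mem_powerset] at hs ⊢
      refine ⟨?_, ?_⟩
      · intro x hx
        rw [Finset.mem_symmDiff] at hx
        rcases hx with ⟨hx, _⟩ | ⟨hx, _⟩
        · exact hs.1 hx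
        · rw [Finset.mem_singleton] at hx
          rw [hx]; exact Finset.mem_range.2 hk
      · have e1 : k ∈ symmDiff s {k} ↔ k ∉ s := by simp [Finset.mem_symmDiff]
        have e2 : l ∈ symmDiff s {k} ↔ l ∈ s := by
          simp [Finset.mem_symmDiff, hkl.symm]
        rw [e1, e2]
        tauto
    · intro s _ t _ hst
      exact symmDiff_left_injective _ hst
    · intro s hs
      simp only [Finset.mem_filter, Finset.mem_powerset] at hs
      refine ⟨symmDiff s {k}, ?_, by simp⟩
      simp only [Finset.mem_filter, Finset.mem_powerset]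
      refine ⟨?_, ?_⟩
      · intro x hx
        rw [Finset.mem_symmDiff] at hx
        rcases hx with ⟨hx, _⟩ | ⟨hx, _⟩
        · exact hs.1 hx
        · rw [Finset.mem_singleton] at hx
          rw [hx]; exact Finset.mem_range.2 hk
      · have e1 : k ∈ symmDiff s {k} ↔ k ∉ s := by simp [Finset.mem_symmDiff]
        have e2 : l ∈ symmDiff s {k} ↔ l ∈ s := by
          simp [Finset.mem_symmDiff, hkl.symm]
        rw [e1, e2]
        tauto
  have h2 := Finset.card_filter_add_card_filter_not (s := (Finset.range n).powerset)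
    (fun s => ¬ (k ∈ s ↔ l ∈ s))
  rw [Finset.card_powerset, Finset.card_range] at h2
  omega

/-- `X_a` has `a j` functions with pairwise distance `≥ 2^-(j+2)`. -/
theorem sep_XA (a : ℕ → ℕ) (j : ℕ) : Sep (XA a) ((1/2 : ℝ) ^ (j + 2)) (a j) := by
  classical
  refine ⟨fun k x => if x.fst = j ∧ (k : ℕ) ∈ x.snd then 1 else 0, ?_, ?_, ?_⟩
  · intro k
    apply LipschitzWith.of_dist_le_mul
    intro x y
    rw [NNReal.coe_one, one_mul]
    by_cases hxy : x = y
    · subst hxy; simp
    · have : dist x y = 1 := (DN.dist_def x y).trans (if_neg hxy)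
      rw [this, Real.dist_eq]
      change |(if x.fst = j ∧ (k : ℕ) ∈ x.snd then (1:ℝ) else 0) -
        (if y.fst = j ∧ (k : ℕ) ∈ y.snd then (1:ℝ) else 0)| ≤ 1
      split_ifs <;> norm_num
  · intro k x
    change 0 ≤ (if x.fst = j ∧ (k : ℕ) ∈ x.snd then (1:ℝ) else 0) ∧
      (if x.fst = j ∧ (k : ℕ) ∈ x.snd then (1:ℝ) else 0) ≤ 1
    split_ifs <;> norm_num
  · intro k l hkl
    set ε : ℝ := (1/2 : ℝ) ^ (j + 2) with hε
    have hεp : 0 < ε := by positivity
    have hε1 : ε ≤ 1 := pow_le_one₀ (by norm_num) (by norm_num)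
    apply le_csInf (kf_nonempty _ _)
    rintro r ⟨hr0, hr⟩
    by_contra hcon
    push Not at hcon
    -- the set where the functions differ
    set A : Set DN := {x | x.fst = j ∧ ¬ ((k : ℕ) ∈ x.snd ↔ (l : ℕ) ∈ x.snd)} with hA
    have hsub : A ⊆ {t : DN | r < |(if t.fst = j ∧ (k : ℕ) ∈ t.snd then (1:ℝ) else 0) -
        (if t.fst = j ∧ (l : ℕ) ∈ t.snd then (1:ℝ) else 0)|} := by
      rintro x ⟨h1, h2⟩
      simp only [mem_ofPred_eq, h1, true_and]
      by_cases c1 : (k : ℕ) ∈ x.snd
      · have c2 : (l : ℕ) ∉ x.snd := by tauto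
        rw [if_pos c1, if_neg c2]; norm_num; linarith
      · have c2 : (l : ℕ) ∈ x.snd := by tauto
        rw [if_neg c1, if_pos c2]; norm_num; linarith
    have hmeas : ENNReal.ofReal ε ≤ muA a A := by
      have h1 : muA a A ≥ ((2:ℝ≥0∞)⁻¹) ^ (j + 1) * nu j (a j) A := by
        unfold muA
        rw [Measure.sum_apply _ (MeasurableSpace.measurableSet_top)]
        exact ENNReal.le_tsum (f := fun i => (((2:ℝ≥0∞)⁻¹) ^ (i + 1) • nu i (a i)) A) j
      have h2 : nu j (a j) A = 2⁻¹ := by
        rw [nu_apply]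
        have h3 := half_count (n := a j) k.2 (l := (l : ℕ)) (fun h => hkl (Fin.ext h))
        have h4 : ((Finset.range (a j)).powerset.filter fun s => DN.mk j s ∈ A) =
            ((Finset.range (a j)).powerset.filter fun s => ¬ ((k : ℕ) ∈ s ↔ (l : ℕ) ∈ s)) := by
          apply Finset.filter_congr
          intro s _
          simp [hA]
        rw [h4]
        have h5 : (2:ℝ≥0∞) ^ (a j) = 2 * (((Finset.range (a j)).powerset.filter
            fun s => ¬ ((k : ℕ) ∈ s ↔ (l : ℕ) ∈ s)).card : ℝ≥0∞) := by
          rw [← Nat.cast_ofNat, ← Nat.cast_mul, h3]; push_cast; rfl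
        rw [h5]
        have hne : (((Finset.range (a j)).powerset.filter
            fun s => ¬ ((k : ℕ) ∈ s ↔ (l : ℕ) ∈ s)).card : ℝ≥0∞) ≠ 0 := by
          intro h0
          rw [h0, mul_zero] at h5
          exact absurd h5 (by positivity)
        rw [ENNReal.mul_inv (by simp) (by simp), mul_assoc,
          ENNReal.inv_mul_cancel hne (by simp), mul_one]
      rw [h2] at h1
      refine le_trans (le_of_eq ?_) h1
      rw [hε, ENNReal.ofReal_pow (by norm_num), ← pow_succ]
      congr 1
      rw [one_div, ENNReal.ofReal_inv_of_pos (by norm_num)]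
      norm_num
    have h6 : ENNReal.ofReal ε ≤ ENNReal.ofReal r := hmeas.trans ((measure_mono hsub).trans hr)
    rw [ENNReal.ofReal_le_ofReal_iff hr0] at h6
    linarith

/-- **Main theorem.** -/
theorem not_sigmaCompact : ¬ SigmaCompactSpace MM := by
  intro hσ
  choose a ha using fun j : ℕ => sep_compact (isCompact_compactCovering MM j)
    (ε := (1/2 : ℝ) ^ (j + 2)) (by positivity)
  have hmem : MM.mk (XA a) ∈ ⋃ j, compactCovering MM j := by
    rw [iUnion_compactCovering]; exact mem_univ _
  obtain ⟨j, hj⟩ := mem_iUnion.1 hmem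
  exact ha j (XA a) hj (sep_XA a j)

end Pool.Agent.Work.MP_bb77e0_gt
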